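import Mathlib
import Pool.Agent.NH64.BC.Final

set_option autoImplicit false

open MeasureTheory Filter Topology
open Pool.Agent.Results.MP_ddcbd8_an.SingularDensities

namespace Pool.Agent.Results.MP_ddcbd8_an.DensitiesConverge

/-- If the Bernoulli convolution `ν_β`, `1 < β < 2`, is absolutely continuous, then the
approximating densities `f_n` converge almost everywhere to its density. -/
theorem result (β : ℝ) (hβ : 1 < β) (hβ2 : β < 2) (hac : bernoulliConv β ≪ volume) :
    ∀ᵐ x ∂(volume : Measure ℝ), Tendsto (fun n : ℕ => f β n x) atTop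
      (𝓝 ((bernoulliConv β).rnDeriv volume x).toReal) :=
  Pool.Agent.NH64.BC.main hβ hβ2 hac

end Pool.Agent.Results.MP_ddcbd8_an.DensitiesConverge
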